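import Pool.Agent.EDG.StmtsC

/-!
# EDG, row CPL (helper98)
-/

set_option autoImplicit false

namespace Pool.Agent.EDG.H98

open Polynomial Pool.Agent.EDG.C

/-- `c = α - α ^ 2` -/
noncomputable def fi : ℂ[X] →+* ℂ[X] := compRingHom (X - X ^ 2)

/-- `α ↦ 1 - α` -/
noncomputable def sg : ℂ[X] →+* ℂ[X] := compRingHom (1 - X)

theorem fi_apply (p : ℂ[X]) : fi p = p.comp (X - X ^ 2) := rfl

theorem sg_apply (p : ℂ[X]) : sg p = p.comp (1 - X) := rfl

theorem sg_sg (p : ℂ[X]) : sg (sg p) = p := by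
  rw [sg_apply, sg_apply, comp_assoc]
  have : (1 - X : ℂ[X]).comp (1 - X) = X := by simp
  rw [this, comp_X]

theorem sg_fi (p : ℂ[X]) : sg (fi p) = fi p := by
  rw [sg_apply, fi_apply, comp_assoc]
  have : (X - X ^ 2 : ℂ[X]).comp (1 - X) = X - X ^ 2 := by
    simp only [sub_comp, X_comp, X_pow_comp]
    ring
  rw [this]

theorem sg_inj : Function.Injective sg := fun a b h => by
  rw [← sg_sg a, ← sg_sg b, h]

theorem deg_q : (X - X ^ 2 : ℂ[X]).natDegree = 2 := by
  have : (X - X ^ 2 : ℂ[X]) = -(X ^ 2 - X) := by ring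
  rw [this, natDegree_neg]
  exact natDegree_sub_eq_left_of_natDegree_lt (by rw [natDegree_X, natDegree_X_pow]; norm_num) |>.trans
    (natDegree_X_pow 2)

theorem q_ne : (X - X ^ 2 : ℂ[X]) ≠ 0 := fun h => by
  have := deg_q
  rw [h, natDegree_zero] at this
  exact absurd this (by norm_num)

theorem fi_inj : Function.Injective fi := by
  rw [injective_iff_map_eq_zero]
  intro p hp
  by_contra hne
  have h1 : (fi p).natDegree = p.natDegree * 2 := by
    rw [fi_apply, natDegree_comp, deg_q]
  rw [hp, natDegree_zero] at h1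
  have h2 : p.natDegree = 0 := by omega
  rw [eq_C_of_natDegree_eq_zero h2, fi_apply, C_comp] at hp
  apply hne
  rw [eq_C_of_natDegree_eq_zero h2, hp]

theorem inv (d : ℕ) : ∀ p : ℂ[X], p.natDegree ≤ d → sg p = p → ∃ q, fi q = p := by
  induction d using Nat.strong_induction_on with
  | _ d ih =>
    intro p hd hp
    set a := p.eval 0 with ha
    have h0 : (p - C a).eval 0 = 0 := by simp [ha]
    have h1 : (p - C a).eval 1 = 0 := by
      have : p.eval 1 = p.eval 0 := by
        have h2 : (sg p).eval 0 = p.eval 1 := by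
          rw [sg_apply, eval_comp]; simp
        rw [← h2, hp]
      rw [eval_sub, eval_C, this, ha, sub_self]
    obtain ⟨r, hr⟩ : X ∣ p - C a := by
      rw [X_dvd_iff, coeff_zero_eq_eval_zero]
      exact h0
    have h3 : r.eval 1 = 0 := by
      rw [hr, eval_mul, eval_X, one_mul] at h1
      exact h1
    obtain ⟨s, hs⟩ : (X - C 1) ∣ r := dvd_iff_isRoot.mpr h3
    have h4 : p = (X - X ^ 2) * (-s) + C a := by
      have : p - C a = (X - X ^ 2) * (-s) := by
        rw [hr, hs, C_1]; ring
      rw [← this]; ring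
    set u := -s with hu
    by_cases hu0 : u = 0
    · refine ⟨C a, ?_⟩
      rw [fi_apply, C_comp]
      rw [h4, hu0, mul_zero, zero_add]
    have h5 : sg u = u := by
      have h6 : (X - X ^ 2) * sg u = (X - X ^ 2) * u := by
        have h7 : sg ((X - X ^ 2) * u + C a) = (X - X ^ 2) * u + C a := by rw [← h4, hp]
        rw [map_add, map_mul] at h7
        have h8 : sg (C a) = C a := by rw [sg_apply, C_comp]
        have h9 : sg (X - X ^ 2) = X - X ^ 2 := by
          have := sg_fi X
          rw [fi_apply, X_comp] at this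
          exact this
        rw [h8, h9] at h7
        exact add_right_cancel h7
      exact mul_left_cancel₀ q_ne h6
    have h10 : u.natDegree < p.natDegree := by
      have h11 : ((X - X ^ 2) * u).natDegree = 2 + u.natDegree := by
        rw [natDegree_mul q_ne hu0, deg_q]
      have h12 : p.natDegree = 2 + u.natDegree := by
        rw [h4, natDegree_add_C, h11]
      omega
    obtain ⟨q, hq⟩ := ih u.natDegree (lt_of_lt_of_le h10 hd) u le_rfl h5
    refine ⟨X * q + C a, ?_⟩
    rw [map_add, map_mul, hq, h4]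
    have h13 : fi X = X - X ^ 2 := by rw [fi_apply, X_comp]
    have h14 : fi (C a) = C a := by rw [fi_apply, C_comp]
    rw [h13, h14]

theorem lift_inv (S : ℂ[X][X]) (h : S.map sg = S) : ∃ R : ℂ[X][X], R.map fi = S := by
  have h1 : S ∈ lifts fi := by
    rw [lifts_iff_coeff_lifts]
    intro n
    have h2 : sg (S.coeff n) = S.coeff n := by
      have := congrArg (fun P => P.coeff n) h
      simpa only [coeff_map] using this
    obtain ⟨q, hq⟩ := inv _ (S.coeff n) le_rfl h2
    exact ⟨q, hq⟩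
  rw [mem_lifts] at h1
  exact h1

/-- `σ` as an equivalence -/
noncomputable def se : ℂ[X] ≃+* ℂ[X] :=
  RingEquiv.ofRingHom sg sg (RingHom.ext sg_sg) (RingHom.ext sg_sg)

theorem map_se (P : ℂ[X][X]) : Polynomial.mapEquiv se P = P.map sg := rfl

theorem cpl (_evi : EviStmt) : CplStmt := by
  intro n R1 hn hR1 hdvd hdeg hres
  have hR10 : R1 ≠ 0 := hR1.ne_zero
  have hfi : ∀ k, phiA k = (phi k).map fi := fun k => rfl
  have hinvA : ∀ k, (phiA k).map sg = phiA k := by
    intro k
    rw [hfi, map_map]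
    congr 1
    exact RingHom.ext sg_fi
  -- a monic irreducible factor
  obtain ⟨τ, hτm, hτi, hτd⟩ : ∃ τ : ℂ[X][X], τ.Monic ∧ Irreducible τ ∧ τ ∣ R1 := by
    have hnu : ¬ IsUnit R1 := fun h => by
      have := hR1.isUnit_iff.mp h
      rw [this, natDegree_one] at hdeg
      exact lt_irrefl _ hdeg
    obtain ⟨τ', hi, hd⟩ := WfDvdMonoid.exists_irreducible_factor hnu hR10
    have hlc : IsUnit τ'.leadingCoeff := by
      have := leadingCoeff_dvd_leadingCoeff hd
      rw [hR1.leadingCoeff] at this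
      exact isUnit_of_dvd_one this
    obtain ⟨v, hv⟩ := hlc
    refine ⟨C ((v⁻¹ : (ℂ[X])ˣ) : ℂ[X]) * τ', ?_, ?_, ?_⟩
    · unfold Monic
      rw [leadingCoeff_mul, leadingCoeff_C, ← hv, Units.inv_mul]
    · have hun : IsUnit (C ((v⁻¹ : (ℂ[X])ˣ) : ℂ[X])) := isUnit_C.mpr (Units.isUnit _)
      exact (irreducible_isUnit_mul hun).mpr hi
    · have hun : IsUnit (C ((v⁻¹ : (ℂ[X])ˣ) : ℂ[X])) := isUnit_C.mpr (Units.isUnit _)
      exact (hun.mul_left_dvd).mpr hd
  have hτ0 : τ ≠ 0 := hτm.ne_zero
  have hτdeg : 0 < τ.natDegree := by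
    rcases Nat.eq_zero_or_pos τ.natDegree with h | h
    · exact absurd (hτm.natDegree_eq_zero.mp h ▸ isUnit_one) hτi.not_isUnit
    · exact h
  set τ' : ℂ[X][X] := τ.map sg with hτ'
  have hτ'm : τ'.Monic := hτm.map sg
  have hτ'i : Irreducible τ' := by
    have := (MulEquiv.irreducible_iff (Polynomial.mapEquiv se)).mpr hτi
    rw [map_se] at this
    exact this
  have hτ'deg : τ'.natDegree = τ.natDegree := hτm.natDegree_map sg
  have hττ : τ'.map sg = τ := by
    rw [hτ', map_map]
    have : sg.comp sg = RingHom.id _ := RingHom.ext sg_sg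
    rw [this, Polynomial.map_id]
  have hτA : τ ∣ phiA n := hτd.trans hdvd
  have hτ'A : τ' ∣ phiA n := by
    rw [← hinvA n]
    exact Polynomial.map_dvd sg hτA
  -- resultants
  have hresτ : ∀ p ∈ n.primeFactors, resultant τ (phiA (n / p)) ≠ 0 := by
    intro p hp
    obtain ⟨R2, hR2⟩ := hτd
    have hR20 : R2 ≠ 0 := fun h => hR10 (by rw [hR2, h, mul_zero])
    have h1 := hres p hp
    have h2 : R1.natDegree = τ.natDegree + R2.natDegree := by
      rw [hR2, natDegree_mul hτ0 hR20]
    rw [h2] at h1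
    rw [hR2, resultant_mul_left _ _ _ _ le_rfl] at h1
    exact left_ne_zero_of_mul h1
  have hresτ' : ∀ p ∈ n.primeFactors, resultant τ' (phiA (n / p)) ≠ 0 := by
    intro p hp h
    have h1 : resultant (τ.map sg) ((phiA (n / p)).map sg) τ.natDegree (phiA (n / p)).natDegree = 0 := by
      rw [hinvA]
      rw [hτ'deg] at h
      exact h
    rw [resultant_map_map] at h1
    exact hresτ p hp (sg_inj (by rw [h1, map_zero]))
  -- the product
  obtain ⟨S, hSm, hSinv, hSA, hSpos, hSle, hSres⟩ : ∃ S : ℂ[X][X], S.Monic ∧ S.map sg = S ∧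
      S ∣ phiA n ∧ 0 < S.natDegree ∧ S.natDegree ≤ 2 * τ.natDegree ∧
      ∀ p ∈ n.primeFactors, resultant S (phiA (n / p)) ≠ 0 := by
    by_cases hcase : τ' = τ
    · exact ⟨τ, hτm, hcase, hτA, hτdeg, by omega, hresτ⟩
    · refine ⟨τ * τ', hτm.mul hτ'm, ?_, ?_, ?_, ?_, ?_⟩
      · rw [Polynomial.map_mul, hττ, ← hτ', mul_comm]
      · obtain ⟨a, ha⟩ := hτA
        have h1 : τ' ∣ τ * a := ha ▸ hτ'A
        rcases hτ'i.prime.dvd_or_dvd h1 with h2 | h2
        · exfalso
          have h3 : Associated τ' τ := (hτ'i.dvd_irreducible_iff_associated hτi).mp h2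
          exact hcase (eq_of_monic_of_associated hτ'm hτm h3)
        · rw [ha]
          exact mul_dvd_mul_left τ h2
      · rw [natDegree_mul hτ0 hτ'm.ne_zero]
        omega
      · rw [natDegree_mul hτ0 hτ'm.ne_zero, hτ'deg]
        omega
      · intro p hp
        have h1 : (τ * τ').natDegree = τ.natDegree + τ'.natDegree :=
          natDegree_mul hτ0 hτ'm.ne_zero
        rw [h1, resultant_mul_left _ _ _ _ le_rfl]
        exact mul_ne_zero (hresτ p hp) (hresτ' p hp)
  obtain ⟨R, hR⟩ := lift_inv S hSinv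
  have hRdeg : R.natDegree = S.natDegree := by
    rw [← hR]
    exact (natDegree_map_eq_of_injective fi_inj R).symm
  have hRm : R.Monic := monic_of_injective fi_inj (by rw [hR]; exact hSm)
  refine ⟨R, hRm, ?_, ?_, ?_, ?_⟩
  · have h1 : R.map fi ∣ (phi n).map fi := by rw [hR, ← hfi]; exact hSA
    exact (Polynomial.map_dvd_map fi fi_inj hRm).mp h1
  · rw [hRdeg]; exact hSpos
  · rw [hRdeg]
    have h1 : τ.natDegree ≤ R1.natDegree := natDegree_le_of_dvd hτd hR10
    omega
  · intro p hp h
    apply hSres p hp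
    have h1 : resultant (R.map fi) ((phi (n / p)).map fi) R.natDegree (phi (n / p)).natDegree = 0 := by
      rw [resultant_map_map, h, map_zero]
    rw [hR, hRdeg] at h1
    have h2 : (phiA (n / p)).natDegree = (phi (n / p)).natDegree := by
      rw [hfi]
      exact natDegree_map_eq_of_injective fi_inj _
    rw [h2, hfi]
    exact h1

end Pool.Agent.EDG.H98
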